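import Mathlib
import Pool.Agent.U309.ZF.Stm
import Pool.Agent.H437R2.Man.LowPrimes

/-!
# Project ZF, package RED (helper61)

Reduction of sums over the primes `v` of a number field `K` of degree `n` and exponents to sums over
rational primes, with an error `O(n)`.
-/

set_option autoImplicit false

open NumberField IsDedekindDomain Filter Topology
open Pool.Agent.H437R2.Man.Low

namespace Pool.Agent.U61.ZF

open Pool.Agent.U309.ZF

section

variable {K : Type} [Field K] [NumberField K]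

lemma below_prime (v : HeightOneSpectrum (𝓞 K)) : (below v).Prime := (below_data v).1

lemma nm_eq (v : HeightOneSpectrum (𝓞 K)) : ∃ f : ℕ, 0 < f ∧ nm v = below v ^ f := by
  have hmax : v.asIdeal.IsMaximal := v.isPrime.isMaximal v.ne_bot
  obtain ⟨p, n, hn, hpm, hp, h⟩ := Ideal.exists_prime_and_absNorm_eq_pow v.asIdeal
  have h1 : below v = p := by
    unfold below nm
    rw [h, hp.pow_minFac hn.ne']
  exact ⟨n, hn, by rw [h1]; exact h⟩

lemma q_eq (v : HeightOneSpectrum (𝓞 K)) : q v = (nm v : ℝ) := rfl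

lemma two_le_q (v : HeightOneSpectrum (𝓞 K)) : (2 : ℝ) ≤ q v := by
  rw [q_eq]
  exact_mod_cast two_le_nm v

lemma below_pos (v : HeightOneSpectrum (𝓞 K)) : (0 : ℝ) < (below v : ℝ) := by
  exact_mod_cast (below_prime v).pos

lemma below_le_q (v : HeightOneSpectrum (𝓞 K)) : (below v : ℝ) ≤ q v := by
  rw [q_eq]
  exact_mod_cast (below_data v).2.1

lemma q_rpow_le (v : HeightOneSpectrum (𝓞 K)) {s : ℝ} (hs : 0 ≤ s) :
    q v ^ (-s) ≤ (below v : ℝ) ^ (-s) :=
  Real.rpow_le_rpow_of_nonpos (below_pos v) (below_le_q v) (by linarith)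

lemma sum_le_of_below (g : HeightOneSpectrum (𝓞 K) → ℝ) (h : ℕ → ℝ) (B : ℝ) (hh : ∀ p, 0 ≤ h p)
    (hB : ∀ P : Finset ℕ, (∀ p ∈ P, p.Prime) → ∑ p ∈ P, h p ≤ B)
    (hg : ∀ v, g v ≤ h (below v)) (F : Finset (HeightOneSpectrum (𝓞 K))) :
    ∑ v ∈ F, g v ≤ (Module.finrank ℚ K : ℝ) * B := by
  classical
  have h1 : ∑ v ∈ F, g v = ∑ p ∈ F.image below, ∑ v ∈ F with below v = p, g v := by
    rw [Finset.sum_fiberwise_of_maps_to]
    intro v hv
    exact Finset.mem_image_of_mem _ hv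
  rw [h1]
  have h2 : ∀ p ∈ F.image below, ∑ v ∈ F with below v = p, g v ≤
      (Module.finrank ℚ K : ℝ) * h p := by
    intro p _
    calc ∑ v ∈ F with below v = p, g v
        ≤ ∑ v ∈ F with below v = p, h p := by
          refine Finset.sum_le_sum fun v hv => ?_
          rw [Finset.mem_filter] at hv
          have := hg v
          rwa [hv.2] at this
      _ = ((F.filter (fun v => below v = p)).card : ℝ) * h p := by
          rw [Finset.sum_const, nsmul_eq_mul]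
      _ ≤ (Module.finrank ℚ K : ℝ) * h p := by
          have := card_above p (F.filter (fun v => below v = p)) (fun v hv =>
            (Finset.mem_filter.1 hv).2)
          have h0 := hh p
          gcongr
  refine (Finset.sum_le_sum h2).trans ?_
  rw [← Finset.mul_sum]
  have h3 := hB (F.image below) (by
    intro p hp
    obtain ⟨v, -, rfl⟩ := Finset.mem_image.1 hp
    exact below_prime v)
  gcongr

lemma summable_of_below (g : HeightOneSpectrum (𝓞 K) → ℝ) (h : ℕ → ℝ) (B : ℝ) (hh : ∀ p, 0 ≤ h p)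
    (hB : ∀ P : Finset ℕ, (∀ p ∈ P, p.Prime) → ∑ p ∈ P, h p ≤ B)
    (hg0 : ∀ v, 0 ≤ g v) (hg : ∀ v, g v ≤ h (below v)) :
    Summable g ∧ ∑' v, g v ≤ (Module.finrank ℚ K : ℝ) * B :=
  ⟨summable_of_sum_le hg0 (sum_le_of_below g h B hh hB hg),
    Real.tsum_le_of_sum_le hg0 (sum_le_of_below g h B hh hB hg)⟩

lemma sum_rpow_le {s : ℝ} (hs : 1 < s) {A : ℝ} (hA : 0 ≤ A) (P : Finset ℕ) :
    ∑ p ∈ P, A * (p : ℝ) ^ (-s) ≤ A * ∑' m : ℕ, (m : ℝ) ^ (-s) := by
  have hsum : Summable (fun m : ℕ => (m : ℝ) ^ (-s)) := Real.summable_nat_rpow.2 (by linarith)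
  rw [← Finset.mul_sum]
  exact mul_le_mul_of_nonneg_left (hsum.sum_le_tsum P (fun _ _ => by positivity)) hA

lemma log_q_nonneg (v : HeightOneSpectrum (𝓞 K)) : 0 ≤ Real.log (q v) :=
  Real.log_nonneg (by linarith [two_le_q v])

lemma wt_zero (δ : ℝ) (v : HeightOneSpectrum (𝓞 K)) :
    wt δ (v, 0) = Real.log (q v) * q v ^ (-(1 + δ)) := by
  unfold wt
  norm_num

lemma wt_nonneg (δ : ℝ) (x : HeightOneSpectrum (𝓞 K) × ℕ) : 0 ≤ wt δ x := by
  unfold wt
  have h := two_le_q x.1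
  exact mul_nonneg (log_q_nonneg _) (Real.rpow_nonneg (by linarith) _)

lemma rpow_neg_nat_le (v : HeightOneSpectrum (𝓞 K)) (k : ℕ) : q v ^ (-(k : ℝ)) ≤ (1 / 2 : ℝ) ^ k := by
  have h := two_le_q v
  rw [Real.rpow_neg (by linarith), Real.rpow_natCast, one_div, inv_pow]
  exact inv_anti₀ (by positivity) (pow_le_pow_left₀ (by norm_num) h k)

lemma wt_le {δ : ℝ} (hδ : 0 < δ) (v : HeightOneSpectrum (𝓞 K)) (k : ℕ) :
    wt δ (v, k) ≤ (Real.log (q v) * q v ^ (-(1 + δ))) * (1 / 2 : ℝ) ^ k := by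
  have h := two_le_q v
  have h0 : 0 < q v := by linarith
  unfold wt
  have e : -(((k : ℝ) + 1) * (1 + δ)) = -(1 + δ) + -((k : ℝ) * (1 + δ)) := by ring
  show Real.log (q v) * q v ^ (-(((k : ℝ) + 1) * (1 + δ))) ≤ _
  rw [e, Real.rpow_add h0, ← mul_assoc]
  have h1 : q v ^ (-((k : ℝ) * (1 + δ))) ≤ q v ^ (-(k : ℝ)) := by
    refine Real.rpow_le_rpow_of_exponent_le (by linarith) ?_
    have : (0 : ℝ) ≤ k := by positivity
    nlinarith
  have h2 := h1.trans (rpow_neg_nat_le v k)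
  exact mul_le_mul_of_nonneg_left h2 (mul_nonneg (log_q_nonneg v) (Real.rpow_nonneg h0.le _))

lemma wt_succ_le {δ : ℝ} (hδ : 0 < δ) (v : HeightOneSpectrum (𝓞 K)) (k : ℕ) :
    wt δ (v, k + 1) ≤ (2 * (below v : ℝ) ^ (-(3 / 2 : ℝ))) * (1 / 2 : ℝ) ^ k := by
  have h := two_le_q v
  have h0 : 0 < q v := by linarith
  unfold wt
  show Real.log (q v) * q v ^ (-((((k + 1 : ℕ) : ℝ) + 1) * (1 + δ))) ≤ _
  have h1 : q v ^ (-((((k + 1 : ℕ) : ℝ) + 1) * (1 + δ))) ≤ q v ^ (-(2 : ℝ) + -(k : ℝ)) := by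
    refine Real.rpow_le_rpow_of_exponent_le (by linarith) ?_
    have : (0 : ℝ) ≤ k := by positivity
    push_cast
    nlinarith
  rw [Real.rpow_add h0] at h1
  have h2 : Real.log (q v) ≤ q v ^ (1 / 2 : ℝ) / (1 / 2) := Real.log_le_rpow_div h0.le (by norm_num)
  have h3 : Real.log (q v) * q v ^ (-(2 : ℝ)) ≤ 2 * q v ^ (-(3 / 2 : ℝ)) := by
    calc Real.log (q v) * q v ^ (-(2 : ℝ)) ≤ (q v ^ (1 / 2 : ℝ) / (1 / 2)) * q v ^ (-(2 : ℝ)) :=
          mul_le_mul_of_nonneg_right h2 (Real.rpow_nonneg h0.le _)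
      _ = 2 * (q v ^ (1 / 2 : ℝ) * q v ^ (-(2 : ℝ))) := by ring
      _ = 2 * q v ^ (-(3 / 2 : ℝ)) := by
          rw [← Real.rpow_add h0]
          norm_num
  have h4 : (0 : ℝ) ≤ q v ^ (-(2 : ℝ)) := Real.rpow_nonneg h0.le _
  calc Real.log (q v) * q v ^ (-((((k + 1 : ℕ) : ℝ) + 1) * (1 + δ)))
      ≤ Real.log (q v) * (q v ^ (-(2 : ℝ)) * q v ^ (-(k : ℝ))) :=
        mul_le_mul_of_nonneg_left h1 (log_q_nonneg v)
    _ = (Real.log (q v) * q v ^ (-(2 : ℝ))) * q v ^ (-(k : ℝ)) := by ring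
    _ ≤ (2 * q v ^ (-(3 / 2 : ℝ))) * (1 / 2 : ℝ) ^ k :=
        mul_le_mul h3 (rpow_neg_nat_le v k) (Real.rpow_nonneg h0.le _) (by positivity)
    _ ≤ (2 * (below v : ℝ) ^ (-(3 / 2 : ℝ))) * (1 / 2 : ℝ) ^ k := by
        have := q_rpow_le v (s := 3 / 2) (by norm_num)
        gcongr

/-- Summability of `log q q^(-(1+δ))`. -/
lemma summable_log (K : Type) [Field K] [NumberField K] {δ : ℝ} (hδ : 0 < δ) :
    Summable (fun v : HeightOneSpectrum (𝓞 K) => Real.log (q v) * q v ^ (-(1 + δ))) := by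
  refine (summable_of_below _ (fun p => (2 / δ) * (p : ℝ) ^ (-(1 + δ / 2)))
    ((2 / δ) * ∑' m : ℕ, (m : ℝ) ^ (-(1 + δ / 2))) (fun p => by positivity) (fun P _ => ?_)
    (fun v => ?_) (fun v => ?_)).1
  · exact sum_rpow_le (by linarith) (by positivity) P
  · exact mul_nonneg (log_q_nonneg v) (Real.rpow_nonneg (by linarith [two_le_q v]) _)
  · have h0 : 0 < q v := by linarith [two_le_q v]
    have h2 : Real.log (q v) ≤ q v ^ (δ / 2) / (δ / 2) := Real.log_le_rpow_div h0.le (by linarith)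
    calc Real.log (q v) * q v ^ (-(1 + δ)) ≤ (q v ^ (δ / 2) / (δ / 2)) * q v ^ (-(1 + δ)) :=
          mul_le_mul_of_nonneg_right h2 (Real.rpow_nonneg h0.le _)
      _ = (2 / δ) * (q v ^ (δ / 2) * q v ^ (-(1 + δ))) := by
          field_simp
      _ = (2 / δ) * q v ^ (-(1 + δ / 2)) := by
          rw [← Real.rpow_add h0]
          congr 2
          ring
      _ ≤ (2 / δ) * (below v : ℝ) ^ (-(1 + δ / 2)) := by
          have := q_rpow_le v (s := 1 + δ / 2) (by linarith)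
          gcongr

/-- the main term at `v` -/
noncomputable def mt (X : ℕ → ℝ) (δ : ℝ) (v : HeightOneSpectrum (𝓞 K)) : ℝ := by
  classical
  exact if (nm v).Prime then X (nm v) * wt δ (v, 0) else 0

lemma mt_prime {X : ℕ → ℝ} {δ : ℝ} {v : HeightOneSpectrum (𝓞 K)} (h : (nm v).Prime) :
    mt X δ v = X (nm v) * wt δ (v, 0) := by
  unfold mt
  simp [h]

lemma mt_not {X : ℕ → ℝ} {δ : ℝ} {v : HeightOneSpectrum (𝓞 K)} (h : ¬ (nm v).Prime) :
    mt X δ v = 0 := by
  unfold mt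
  simp [h]

/-- the sum of the main terms -/
lemma tsum_mt (X : ℕ → ℝ) {δ : ℝ} (hs : Summable (mt (K := K) X δ)) :
    ∑' v : HeightOneSpectrum (𝓞 K), mt X δ v = ∑' p : Nat.Primes, (pi1 K p : ℝ) * X p *
        (Real.log ((p : ℕ) : ℝ) * ((p : ℕ) : ℝ) ^ (-(1 + δ))) := by
  classical
  have hsub : Function.support (mt (K := K) X δ) ⊆ {v | (nm v).Prime} := by
    intro v hv
    by_contra h
    exact hv (mt_not h)
  rw [← tsum_subtype_eq_of_support_subset hsub]
  let φ : {v : HeightOneSpectrum (𝓞 K) | (nm v).Prime} → Nat.Primes := fun v => ⟨nm v.1, v.2⟩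
  have hsS : Summable (fun v : {v : HeightOneSpectrum (𝓞 K) | (nm v).Prime} => mt X δ v.1) :=
    hs.subtype _
  rw [← (Equiv.sigmaFiberEquiv φ).tsum_eq]
  have hs2 : Summable (fun y : (Σ p : Nat.Primes, {s // φ s = p}) =>
      mt X δ ((Equiv.sigmaFiberEquiv φ) y).1) :=
    (Equiv.sigmaFiberEquiv φ).summable_iff.mpr hsS
  rw [hs2.tsum_sigma]
  refine tsum_congr fun p => ?_
  have h1 : ∀ s : {s // φ s = p}, mt X δ ((Equiv.sigmaFiberEquiv φ) ⟨p, s⟩).1 =
      X p * (Real.log ((p : ℕ) : ℝ) * ((p : ℕ) : ℝ) ^ (-(1 + δ))) := by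
    intro s
    have h2 : nm s.1.1 = (p : ℕ) := congrArg Subtype.val s.2
    show mt X δ s.1.1 = _
    rw [mt_prime s.1.2, wt_zero, q_eq, h2]
  rw [tsum_congr h1, tsum_const, nsmul_eq_mul, ← mul_assoc]
  congr 2
  have h3 : Nat.card {s // φ s = p} = pi1 K (p : ℕ) := by
    unfold pi1
    refine Nat.card_congr ⟨fun s => ⟨s.1.1, congrArg Subtype.val s.2⟩,
      fun v => ⟨⟨v.1, ?_⟩, ?_⟩, fun s => rfl, fun v => rfl⟩
    · show (nm v.1).Prime
      have : nm v.1 = (p : ℕ) := v.2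
      rw [this]
      exact p.2
    · exact Subtype.ext v.2
  rw [h3]

lemma sum_log_le (D : ℕ) (hD : D ≠ 0) (P : Finset ℕ) (hP : ∀ p ∈ P, p.Prime) :
    ∑ p ∈ P, (if p ∣ D then 4 * Real.log (p : ℝ) else 0) ≤ 4 * Real.log D := by
  rw [← Finset.sum_filter, ← Finset.mul_sum]
  have h1 : ∑ p ∈ P.filter (· ∣ D), Real.log (p : ℝ) ≤ ∑ p ∈ D.primeFactors, Real.log (p : ℝ) := by
    refine Finset.sum_le_sum_of_subset_of_nonneg ?_ ?_
    · intro p hp
      rw [Finset.mem_filter] at hp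
      exact Nat.mem_primeFactors.2 ⟨hP p hp.1, hp.2, hD⟩
    · intro p hp _
      have := (Nat.prime_of_mem_primeFactors hp).one_lt
      exact Real.log_nonneg (by exact_mod_cast this.le)
  have h2 : ∑ p ∈ D.primeFactors, Real.log (p : ℝ) ≤ Real.log D := by
    rw [← Real.log_prod (fun p hp => by
      have := (Nat.prime_of_mem_primeFactors hp).pos
      positivity)]
    have h3 : (∏ p ∈ D.primeFactors, (p : ℝ)) ≤ (D : ℝ) := by
      have := Nat.le_of_dvd (Nat.pos_of_ne_zero hD) (Nat.prod_primeFactors_dvd D)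
      calc (∏ p ∈ D.primeFactors, (p : ℝ)) = ((∏ p ∈ D.primeFactors, p : ℕ) : ℝ) :=
            (Nat.cast_prod _ _).symm
        _ ≤ (D : ℝ) := Nat.cast_le.2 this
    refine Real.log_le_log ?_ h3
    exact Finset.prod_pos fun p hp => by
      have := (Nat.prime_of_mem_primeFactors hp).pos
      positivity
  linarith

end

theorem t_RED : S_RED := by
  intro n
  have hZ0 : 0 ≤ ∑' m : ℕ, (m : ℝ) ^ (-(3 / 2 : ℝ)) := tsum_nonneg fun m => by positivity
  obtain ⟨Z, hZ⟩ : ∃ Z : ℝ, Z = ∑' m : ℕ, (m : ℝ) ^ (-(3 / 2 : ℝ)) := ⟨_, rfl⟩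
  rw [← hZ] at hZ0
  refine ⟨16 * ((n : ℝ) + 1) * (Z + 1), by positivity, ?_⟩
  intro K _ _ hn c hc X hX D hD hcX δ hδ hδ1
  -- the majorant
  have hG := summable_log K hδ
  have hgeo : Summable (fun k : ℕ => (1 / 2 : ℝ) ^ k) :=
    summable_geometric_of_lt_one (by norm_num) (by norm_num)
  have hprod : Summable (fun x : HeightOneSpectrum (𝓞 K) × ℕ =>
      (Real.log (q x.1) * q x.1 ^ (-(1 + δ))) * (1 / 2 : ℝ) ^ x.2) :=
    Summable.mul_of_nonneg hG hgeo
      (fun v => mul_nonneg (log_q_nonneg v) (Real.rpow_nonneg (by linarith [two_le_q v]) _))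
      (fun k => by positivity)
  have hsum : Summable (fun x => c x * wt δ x) := by
    refine Summable.of_norm_bounded (hprod.mul_left 2) fun x => ?_
    rw [Real.norm_eq_abs, abs_mul, abs_of_nonneg (wt_nonneg δ x)]
    exact mul_le_mul (hc x) (wt_le hδ x.1 x.2) (wt_nonneg δ x) (by norm_num)
  refine ⟨hsum, ?_⟩
  -- splitting
  have hfib : ∀ v : HeightOneSpectrum (𝓞 K), Summable (fun k : ℕ => c (v, k) * wt δ (v, k)) :=
    fun v => hsum.prod_factor v
  have h0 : ∀ v : HeightOneSpectrum (𝓞 K), ∑' k : ℕ, c (v, k) * wt δ (v, k) =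
      c (v, 0) * wt δ (v, 0) + ∑' k : ℕ, c (v, k + 1) * wt δ (v, k + 1) :=
    fun v => (hfib v).tsum_eq_zero_add
  -- the prime powers
  have hR : ∀ v : HeightOneSpectrum (𝓞 K), |∑' k : ℕ, c (v, k + 1) * wt δ (v, k + 1)| ≤
      8 * (below v : ℝ) ^ (-(3 / 2 : ℝ)) := by
    intro v
    have hb : ∀ k : ℕ, ‖c (v, k + 1) * wt δ (v, k + 1)‖ ≤
        (4 * (below v : ℝ) ^ (-(3 / 2 : ℝ))) * (1 / 2 : ℝ) ^ k := by
      intro k
      rw [Real.norm_eq_abs, abs_mul, abs_of_nonneg (wt_nonneg δ _)]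
      calc |c (v, k + 1)| * wt δ (v, k + 1)
          ≤ 2 * ((2 * (below v : ℝ) ^ (-(3 / 2 : ℝ))) * (1 / 2 : ℝ) ^ k) :=
            mul_le_mul (hc _) (wt_succ_le hδ v k) (wt_nonneg δ _) (by norm_num)
        _ = (4 * (below v : ℝ) ^ (-(3 / 2 : ℝ))) * (1 / 2 : ℝ) ^ k := by ring
    have h1 := tsum_of_norm_bounded (hgeo.mul_left (4 * (below v : ℝ) ^ (-(3 / 2 : ℝ)))).hasSum hb
    rw [Real.norm_eq_abs, tsum_mul_left, tsum_geometric_of_lt_one (by norm_num) (by norm_num)] at h1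
    calc _ ≤ _ := h1
      _ = 8 * (below v : ℝ) ^ (-(3 / 2 : ℝ)) := by ring
  have hRs := summable_of_below (K := K)
    (fun v => |∑' k : ℕ, c (v, k + 1) * wt δ (v, k + 1)|)
    (fun p => 8 * (p : ℝ) ^ (-(3 / 2 : ℝ))) (8 * Z) (fun p => by positivity)
    (fun P _ => by rw [hZ]; exact sum_rpow_le (by norm_num) (by norm_num) P)
    (fun v => abs_nonneg _) hR
  -- the primes of degree at least two and the primes dividing `D`
  have hE : ∀ v : HeightOneSpectrum (𝓞 K), |c (v, 0) * wt δ (v, 0) - mt X δ v| ≤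
      8 * (below v : ℝ) ^ (-(3 / 2 : ℝ)) + (if below v ∣ D then 4 * Real.log (below v : ℝ) else 0) := by
    intro v
    have hq2 := two_le_q v
    have hq0 : 0 < q v := by linarith
    have hp0 := below_pos v
    have hlp : 0 ≤ Real.log (below v : ℝ) := Real.log_nonneg (by
      exact_mod_cast (below_prime v).one_lt.le)
    have hite : 0 ≤ (if below v ∣ D then 4 * Real.log (below v : ℝ) else 0) := by
      split_ifs
      · positivity
      · exact le_rfl
    by_cases hpr : (nm v).Prime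
    · have hb : below v = nm v := hpr.minFac_eq
      rw [mt_prime hpr, ← sub_mul, abs_mul, abs_of_nonneg (wt_nonneg δ _)]
      by_cases hdv : nm v ∣ D
      · rw [if_pos (by rw [hb]; exact hdv), hb]
        have h1 : |c (v, 0) - X (nm v)| ≤ 4 := by
          have := abs_sub (c (v, 0)) (X (nm v))
          have h2 := hc (v, 0)
          have h3 := hX _ hpr
          linarith
        have h2 : wt δ (v, 0) ≤ Real.log (nm v : ℝ) := by
          rw [wt_zero, ← q_eq]
          have h3 : q v ^ (-(1 + δ)) ≤ 1 := Real.rpow_le_one_of_one_le_of_nonpos (by linarith)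
            (by linarith)
          calc _ ≤ Real.log (q v) * 1 := mul_le_mul_of_nonneg_left h3 (log_q_nonneg v)
            _ = _ := mul_one _
        have h3 : |c (v, 0) - X (nm v)| * wt δ (v, 0) ≤ 4 * Real.log (nm v : ℝ) :=
          mul_le_mul h1 h2 (wt_nonneg δ _) (by norm_num)
        have h4 : (0 : ℝ) ≤ 8 * (nm v : ℝ) ^ (-(3 / 2 : ℝ)) := by positivity
        linarith
      · have h1 : c (v, 0) = X (nm v) := hcX v (nm v) hpr rfl hdv
        rw [h1, sub_self, abs_zero, zero_mul]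
        positivity
    · rw [mt_not hpr, sub_zero, abs_mul, abs_of_nonneg (wt_nonneg δ _)]
      obtain ⟨f, hf, hnf⟩ := nm_eq v
      have hf2 : 2 ≤ f := by
        rcases Nat.lt_or_ge f 2 with h | h
        · exfalso
          have : f = 1 := by omega
          rw [this, pow_one] at hnf
          rw [hnf] at hpr
          exact hpr (below_prime v)
        · exact h
      have hsq : (below v : ℝ) ^ 2 ≤ q v := by
        rw [q_eq, hnf]
        push_cast
        exact pow_le_pow_right₀ (by exact_mod_cast (below_prime v).one_lt.le) hf2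
      have h2 : Real.log (q v) ≤ q v ^ (1 / 4 : ℝ) / (1 / 4) :=
        Real.log_le_rpow_div hq0.le (by norm_num)
      have h3 : wt δ (v, 0) ≤ 4 * (below v : ℝ) ^ (-(3 / 2 : ℝ)) := by
        rw [wt_zero]
        have h4 : q v ^ (-(1 + δ)) ≤ q v ^ (-(1 : ℝ)) :=
          Real.rpow_le_rpow_of_exponent_le (by linarith) (by linarith)
        calc Real.log (q v) * q v ^ (-(1 + δ))
            ≤ (q v ^ (1 / 4 : ℝ) / (1 / 4)) * q v ^ (-(1 : ℝ)) :=
              mul_le_mul h2 h4 (Real.rpow_nonneg hq0.le _) (by positivity)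
          _ = 4 * (q v ^ (1 / 4 : ℝ) * q v ^ (-(1 : ℝ))) := by ring
          _ = 4 * q v ^ (-(3 / 4 : ℝ)) := by
              rw [← Real.rpow_add hq0]
              norm_num
          _ ≤ 4 * ((below v : ℝ) ^ 2) ^ (-(3 / 4 : ℝ)) := by
              have := Real.rpow_le_rpow_of_nonpos (z := -(3 / 4 : ℝ)) (pow_pos hp0 2) hsq (by norm_num)
              linarith
          _ = 4 * (below v : ℝ) ^ (-(3 / 2 : ℝ)) := by
              rw [← Real.rpow_natCast, ← Real.rpow_mul hp0.le]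
              norm_num
      have h5 : |c (v, 0)| * wt δ (v, 0) ≤ 2 * (4 * (below v : ℝ) ^ (-(3 / 2 : ℝ))) :=
        mul_le_mul (hc _) h3 (wt_nonneg δ _) (by norm_num)
      linarith
  have hEs := summable_of_below (K := K)
    (fun v => |c (v, 0) * wt δ (v, 0) - mt X δ v|)
    (fun p => 8 * (p : ℝ) ^ (-(3 / 2 : ℝ)) + (if p ∣ D then 4 * Real.log (p : ℝ) else 0))
    (8 * Z + 4 * Real.log D) (fun p => by
      have : (0 : ℝ) ≤ (if p ∣ D then 4 * Real.log (p : ℝ) else 0) := by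
        split_ifs
        · have := Real.log_natCast_nonneg p
          positivity
        · exact le_rfl
      positivity)
    (fun P hP => by
      rw [Finset.sum_add_distrib]
      have h1 := sum_rpow_le (s := 3 / 2) (by norm_num) (A := 8) (by norm_num) P
      rw [← hZ] at h1
      have h2 := sum_log_le D hD P hP
      linarith)
    (fun v => abs_nonneg _) hE
  -- summability
  have hF0 : Summable (fun v : HeightOneSpectrum (𝓞 K) => c (v, 0) * wt δ (v, 0)) := by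
    refine Summable.of_norm_bounded (hG.mul_left 2) fun v => ?_
    rw [Real.norm_eq_abs, abs_mul, abs_of_nonneg (wt_nonneg δ _), ← wt_zero]
    exact mul_le_mul_of_nonneg_right (hc _) (wt_nonneg δ _)
  have hEa : Summable (fun v : HeightOneSpectrum (𝓞 K) => c (v, 0) * wt δ (v, 0) - mt X δ v) :=
    Summable.of_norm hEs.1
  have hM : Summable (mt (K := K) X δ) := by
    refine (hF0.sub hEa).congr fun v => ?_
    ring
  have hRa : Summable (fun v : HeightOneSpectrum (𝓞 K) =>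
      ∑' k : ℕ, c (v, k + 1) * wt δ (v, k + 1)) := Summable.of_norm hRs.1
  -- conclusion
  have e1 : ∑' x, c x * wt δ x = ∑' v : HeightOneSpectrum (𝓞 K), c (v, 0) * wt δ (v, 0) +
      ∑' v : HeightOneSpectrum (𝓞 K), ∑' k : ℕ, c (v, k + 1) * wt δ (v, k + 1) := by
    rw [hsum.tsum_prod, tsum_congr h0, hF0.tsum_add hRa]
  rw [e1, ← tsum_mt X hM]
  have e2 : ∑' v : HeightOneSpectrum (𝓞 K), c (v, 0) * wt δ (v, 0) +
      ∑' v : HeightOneSpectrum (𝓞 K), ∑' k : ℕ, c (v, k + 1) * wt δ (v, k + 1) -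
      ∑' v : HeightOneSpectrum (𝓞 K), mt X δ v =
      ∑' v : HeightOneSpectrum (𝓞 K), (c (v, 0) * wt δ (v, 0) - mt X δ v) +
      ∑' v : HeightOneSpectrum (𝓞 K), ∑' k : ℕ, c (v, k + 1) * wt δ (v, k + 1) := by
    rw [hF0.tsum_sub hM]
    ring
  rw [e2]
  have h1 : |∑' v : HeightOneSpectrum (𝓞 K), (c (v, 0) * wt δ (v, 0) - mt X δ v)| ≤
      (n : ℝ) * (8 * Z + 4 * Real.log D) := by
    have := norm_tsum_le_tsum_norm (f := fun v : HeightOneSpectrum (𝓞 K) =>
      c (v, 0) * wt δ (v, 0) - mt X δ v) hEs.1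
    have h2 := hEs.2
    rw [hn] at h2
    exact this.trans h2
  have h2 : |∑' v : HeightOneSpectrum (𝓞 K), ∑' k : ℕ, c (v, k + 1) * wt δ (v, k + 1)| ≤
      (n : ℝ) * (8 * Z) := by
    have := norm_tsum_le_tsum_norm (f := fun v : HeightOneSpectrum (𝓞 K) =>
      ∑' k : ℕ, c (v, k + 1) * wt δ (v, k + 1)) hRs.1
    have h2 := hRs.2
    rw [hn] at h2
    exact this.trans h2
  have h3 := abs_add_le (∑' v : HeightOneSpectrum (𝓞 K), (c (v, 0) * wt δ (v, 0) - mt X δ v))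
    (∑' v : HeightOneSpectrum (𝓞 K), ∑' k : ℕ, c (v, k + 1) * wt δ (v, k + 1))
  have hlD : 0 ≤ Real.log D := Real.log_natCast_nonneg D
  have hn0 : (0 : ℝ) ≤ n := by positivity
  have h4 : (n : ℝ) * (8 * Z + 4 * Real.log D) + (n : ℝ) * (8 * Z) ≤
      16 * ((n : ℝ) + 1) * (Z + 1) * (1 + Real.log D) := by
    have h5 : 0 ≤ (n : ℝ) * Z := mul_nonneg hn0 hZ0
    have h6 : 0 ≤ (n : ℝ) * Real.log D := mul_nonneg hn0 hlD
    have h7 : 0 ≤ Z * Real.log D := mul_nonneg hZ0 hlD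
    have h8 : 0 ≤ (n : ℝ) * Z * Real.log D := mul_nonneg h5 hlD
    nlinarith
  linarith

end Pool.Agent.U61.ZF
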